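import Pool.Agent.Helper446.Martin

/-!
Existence of a co-c.e. cohesive set (the complement of a maximal set).
-/

set_option autoImplicit false

namespace Pool.Agent.K6.H73.MaxSet

open Encodable Nat.Partrec Pool.Agent.Helper446.RE

/-- the value of the `e`-th program on `x` at stage `s`, if it is at most `s` -/
def V (e x s : ℕ) : ℕ :=
  if ((Code.evaln s (Denumerable.ofNat Code e) x).getD 0) ≤ s then
    (Code.evaln s (Denumerable.ofNat Code e) x).getD 0 else 0

/-- maximum of the values of the first `n` programs -/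
def Hm (x s : ℕ) : ℕ → ℕ
  | 0 => 0
  | n + 1 => max (Hm x s n) (V n x s)

def H (x s : ℕ) : ℕ := Hm x s (x + 1)

theorem V_le (e x s : ℕ) : V e x s ≤ s := by
  unfold V; split_ifs with h
  · exact h
  · exact Nat.zero_le _

theorem V_mono (e x : ℕ) {s t : ℕ} (hst : s ≤ t) : V e x s ≤ V e x t := by
  unfold V
  rcases h : Code.evaln s (Denumerable.ofNat Code e) x with _ | v
  · simp
  · have := Code.evaln_mono hst (Option.mem_def.2 h)
    rw [Option.mem_def] at this
    rw [this]
    simp only [Option.getD_some]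
    split_ifs <;> omega

theorem V_lim (e x : ℕ) : ∃ s0, ∀ s, s0 ≤ s → V e x s = V e x s0 := by
  by_cases h : ∃ s v, Code.evaln s (Denumerable.ofNat Code e) x = some v
  · obtain ⟨s, v, hv⟩ := h
    refine ⟨max s v, fun t ht => ?_⟩
    have h1 := Code.evaln_mono ((le_max_left s v).trans ht) (Option.mem_def.2 hv)
    have h2 := Code.evaln_mono (le_max_left s v) (Option.mem_def.2 hv)
    rw [Option.mem_def] at h1 h2
    unfold V
    rw [h1, h2]
    simp only [Option.getD_some]
    have : v ≤ t := (le_max_right s v).trans ht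
    rw [if_pos this, if_pos (le_max_right s v)]
  · push Not at h
    refine ⟨0, fun s _ => ?_⟩
    unfold V
    have h1 : Code.evaln s (Denumerable.ofNat Code e) x = Option.none := by
      rcases hh : Code.evaln s (Denumerable.ofNat Code e) x with _ | v
      · rfl
      · exact absurd hh (h s v)
    have h2 : Code.evaln 0 (Denumerable.ofNat Code e) x = Option.none := by
      rcases hh : Code.evaln 0 (Denumerable.ofNat Code e) x with _ | v
      · rfl
      · exact absurd hh (h 0 v)
    rw [h1, h2]
    simp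

theorem V_comp : Computable fun p : (ℕ × ℕ) × ℕ => V p.1.1 p.1.2 p.2 := by
  have h1 : Computable fun x : (ℕ × Code) × ℕ => (Code.evaln x.1.1 x.1.2 x.2) :=
    Code.primrec_evaln.to_comp
  have h2 : Computable fun p : (ℕ × ℕ) × ℕ => Denumerable.ofNat Code p.1.1 :=
    (Computable.ofNat Code).comp (by fun_prop)
  have h3 : Computable fun p : (ℕ × ℕ) × ℕ =>
      Code.evaln p.2 (Denumerable.ofNat Code p.1.1) p.1.2 :=
    h1.comp (((by fun_prop : Computable fun p : (ℕ × ℕ) × ℕ => p.2).pair h2).pair
      (by fun_prop))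
  have h4 : Computable fun p : (ℕ × ℕ) × ℕ =>
      (Code.evaln p.2 (Denumerable.ofNat Code p.1.1) p.1.2).getD 0 :=
    Computable.option_getD h3 (Computable.const 0)
  exact cite (cp_le h4 (by fun_prop)) h4 (by fun_prop)

theorem H_comp : Computable₂ H := by
  unfold Computable₂
  have h := Computable.nat_rec (f := fun p : ℕ × ℕ => p.1 + 1) (g := fun _ => 0)
    (h := fun p (q : ℕ × ℕ) => max q.2 (V q.1 p.1 p.2))
    (by fun_prop) (by fun_prop) (by
      unfold Computable₂
      have h1 : Computable fun x : (ℕ × ℕ) × (ℕ × ℕ) => V x.2.1 x.1.1 x.1.2 :=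
        V_comp.comp (g := fun x : (ℕ × ℕ) × (ℕ × ℕ) => ((x.2.1, x.1.1), x.1.2)) (by fun_prop)
      fun_prop)
  refine h.of_eq fun p => ?_
  unfold H
  generalize p.1 + 1 = n
  induction n with
  | zero => rfl
  | succ n ih => rw [Hm, ← ih]

theorem Hm_mono (x : ℕ) {s t : ℕ} (hst : s ≤ t) (n : ℕ) : Hm x s n ≤ Hm x t n := by
  induction n with
  | zero => simp [Hm]
  | succ n ih => rw [Hm, Hm]; exact max_le_max ih (V_mono n x hst)

theorem Hm_le (x s n : ℕ) : Hm x s n ≤ s := by
  induction n with
  | zero => simp [Hm]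
  | succ n ih => rw [Hm]; exact max_le ih (V_le n x s)

theorem V_le_Hm (x s : ℕ) {n e : ℕ} (h : e < n) : V e x s ≤ Hm x s n := by
  induction n with
  | zero => omega
  | succ n ih =>
    rw [Hm]
    rcases Nat.lt_succ_iff_lt_or_eq.1 h with h1 | h1
    · exact (ih h1).trans (le_max_left _ _)
    · subst h1; exact le_max_right _ _

theorem Hm_lim (x n : ℕ) : ∃ s0, ∀ s, s0 ≤ s → Hm x s n = Hm x s0 n := by
  induction n with
  | zero => exact ⟨0, fun s _ => by simp [Hm]⟩
  | succ n ih =>
    obtain ⟨s1, h1⟩ := ih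
    obtain ⟨s2, h2⟩ := V_lim n x
    refine ⟨max s1 s2, fun s hs => ?_⟩
    rw [Hm, Hm, h1 s ((le_max_left _ _).trans hs), h2 s ((le_max_right _ _).trans hs),
      h1 (max s1 s2) (le_max_left _ _), h2 (max s1 s2) (le_max_right _ _)]

/-- There is a co-c.e. cohesive set. -/
theorem exists_cohesive : ∃ C : Set ℕ, C.Infinite ∧ REPred (fun x => x ∉ C) ∧
    ∀ W : Set ℕ, REPred (· ∈ W) → (C ∩ W).Finite ∨ (C \ W).Finite := by
  obtain ⟨C, h1, h2, h3, -⟩ := Pool.Agent.Helper446.Martin.exists_cohesive H H_comp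
    (fun x s => Hm_mono x (Nat.le_succ s) _) (fun x s => Hm_le x s _) (fun x => Hm_lim x _)
    (by
      intro f hf
      obtain ⟨c, hc⟩ := Code.exists_code.1 hf.partrec
      refine ⟨encode c, fun x hx => ?_⟩
      have h1 : f x ∈ Code.eval c x := by
        have := congrFun hc x
        simp only [Encodable.decode_nat, Part.coe_some, Part.bind_some, PFun.coe_val,
          Part.map_some, encode_nat] at this
        rw [this]
        exact Part.mem_some _
      obtain ⟨k, hk⟩ := Code.evaln_complete.1 h1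
      refine ⟨max k (f x), ?_⟩
      refine le_trans ?_ (V_le_Hm x (max k (f x)) (Nat.lt_succ_of_le hx))
      have h2 := Code.evaln_mono (le_max_left k (f x)) hk
      rw [Option.mem_def] at h2
      unfold V
      rw [Denumerable.ofNat_encode, h2]
      simp)
    (fun x s => ∀ t, s ≤ t → H x t = H x s) (fun x s h => h) (fun x => Hm_lim x _)
  exact ⟨C, h1, h2, h3⟩

end Pool.Agent.K6.H73.MaxSet
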