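import Pool.Agent.K6.H73.Z7.Z

/-!
# One of the four numbers `ζ(7)`, `ζ(9)`, `ζ(11)`, `ζ(13)` is irrational

(Formerly a hand-in for `MP_db0fbf_nt`, by helper73; the hand-in is now the stronger `MeasureZeta7To13`, a
simultaneous measure for the four numbers, which contains it.)

The analogue for the block `{7, 9, 11, 13}` of Zudilin's theorem on `{5, 7, 9, 11}`; neither theorem implies the
other.

The proof (`Pool/Agent/K6/H73/Z7/`, definitions in `Pool/Agent/H343Z/` of the starting library) compares, for
Hankel determinants of linear forms in `1, ζ(7), ζ(9), ζ(11), ζ(13)` (fourth derivatives of a well-poised rational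
function with poles of order ten), an archimedean bound on two slanted contours, with explicit polynomials, with
`p`-adic bounds for all primes `p`; if the four numbers were rational, the product formula would fail for large prime
parameters, where the determinant does not vanish.

The method and the modules are those of the starting library `Pool/Agent/H343X` (poles of order twenty, eighth
derivatives, the block `11, …, 27`), carried over to the definitions of `Pool/Agent/H343Z`; new are the extremal
polynomials and the break points of the archimedean certificate (`DefsS`, `G3L`, `G3A`, `G3B`, `G3C`), the `p`-adic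
exponents (`E1`–`E4`, `F2`, `F3`) and the local nonvanishing certificate modulo `101` (`H5`).
-/

namespace Pool.Agent.K6.H73.OddZeta7To13

/-- There is an odd `j` with `7 ≤ j ≤ 13` such that `ζ(j) = ∑ 1/(n+1)^j` is irrational. -/
theorem result : ∃ j : ℕ, Odd j ∧ 7 ≤ j ∧ j ≤ 13 ∧ Irrational (∑' n : ℕ, 1 / ((n : ℝ) + 1) ^ j) := by
  obtain ⟨i, hi, h⟩ := Pool.Agent.H343Z.Z_main
  refine ⟨i, ?_, ?_, ?_, h⟩
  · fin_cases hi <;> decide
  · fin_cases hi <;> decide
  · fin_cases hi <;> decide

end Pool.Agent.K6.H73.OddZeta7To13
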